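import Pool.Agent.H40.JsRay

set_option autoImplicit false

namespace Pool.Agent.Results.MP_05264e_lc.NotRealcompact

open Set Filter OnePoint Topology
open Pool.Agent.H40.Bspt Pool.Agent.H40.Jz Pool.Agent.H40.Js Pool.Agent.H40.Js.Ray

theorem result : ∃ (M : Type) (E : M → M → Prop), IsZF E ∧ ∃ (ℛ : Reals E) (Y T X : M),
    IsTop E Y T ∧ Sub E X Y ∧ Tychonoff ℛ X T ∧
      (∀ F, Filt E (ZeroSet ℛ X T) F → Cip E F → Fixed E F) ∧ ¬ Realcompact ℛ X T := by
  obtain ⟨J⟩ := ex_js fx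
  refine ⟨J.M, J.E, J.zf, J.reals, J.sA unA, J.T, J.sA X, J.isTop, J.subA_iff.2 (subset_univ _),
    J.tych sb _, fixed J (fun Z hZ => ?_) fun n => ?_, J.not_rc sb bad⟩
  · obtain ⟨z, f, rfl, h1, -, h2, h3⟩ := J.zero_el sb hZ
    obtain ⟨C, h4, h5⟩ := (continuousOn_iff_isClosed.1 h1) {0} isClosed_singleton
    exact ⟨z, rfl, C, h4, h5 ▸ Set.ext fun x => ⟨fun h => ⟨(h3 x (h2 h)).1 h, h2 h⟩,
      fun h => (h3 x h.2).2 h.1⟩⟩
  · obtain ⟨f, h1, h2, -⟩ := zs (isClosed_singleton (x := p n)) isClosed_empty (disjoint_empty _)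
    exact J.zero_of sb (f := f ∘ r n) (h1.comp (r_cont n)).continuousOn
      ((fixK n).mono fun g hg x _ => congrArg f (r_inv hg x)) inter_subset_right
      fun x hx => (and_iff_left hx).trans (h2 _)

end Pool.Agent.Results.MP_05264e_lc.NotRealcompact
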